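import Pool.Agent.H69.PC.Main

/-!
# MP_ef6eae_lc, Q1: `DAGREACH⁻¹(P)` contains P-complete languages

The definitions (labelled graphs, `L`-DAGREACH, P by Mathlib's Turing machines, logspace
transducers, logspace-uniform NC) are in `Pool/Agent/H31/Dag/Defs.lean`; the word `code w` is
`w # w` (`Pool/Agent/H31/Dag/Circ.lean`). `LogFun`, `OneWayLogFun`, `LogRed`, `PComplete` are in
`Pool/Agent/H69/PC/Main.lean`, `OneWay` in `Pool/Agent/H69/PC/Frag.lean`.

Idea of the proof. For `K ⊆ {0,1}*` in P let `L_K` be the set of the words over `{0,1,#}` that are
not of the form `x # x` with `x ∉ K`. A word `x # x` that is cut anywhere is determined by its right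
part if the cut is before `#`, and by its left part if the cut is after `#`. Therefore an acyclic
graph all of whose `s`-`t` yields are of the form `x # x` has at most as many of them as it has
edges, and in general some `s`-`t` yield is in `L_K` if and only if one of polynomially many
canonical yields is (`reach_iff` in `Reach.lean`). So `L_K`-DAGREACH is in P (`dagReachInP_LK`),
while `x ∈ K` if and only if `x # x ∈ L_K`. Now take for `K` a universal language `KU` in P: its
words describe a stack machine, its input and a number of steps in unary, and a language in P is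
reduced to it by a transducer that reads its input once from left to right
(`Pool/Agent/H69/PC/Univ.lean`, `Sim.lean`, `Prog.lean`). The reduction to `L_KU` prints the
description twice.
-/

set_option autoImplicit false

namespace Pool.Agent.Results.MP_ef6eae_lc.PComplete

open Pool.Agent.H31.Dag Pool.Agent.H69.PC

/-- (1) There is a language `L` over a three-letter alphabet such that `L`-DAGREACH is in P and `L`
is complete for P under logspace many-one reductions; moreover every `K` in P has a function `g`,
computed in logarithmic space by a machine that reads its input once from left to right, with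
`x ∈ K` iff the word `g x # g x` is in `L`.
(2) For every class `C` of languages over `{0,1}` that is closed under logspace many-one
reductions, `DAGREACH⁻¹(P) ⊆ C` if and only if `P ⊆ C`.
(3) `DAGREACH⁻¹(P) ⊆ NC` if and only if `P ⊆ NC`. -/
theorem result :
    (∃ L : Set (List (Fin 3)), DagReachInP L ∧ PComplete (oneHot '' L) ∧
      ∀ K : Set (List Bool), InP (id : List Bool → List Bool) K →
        ∃ g : List Bool → List Bool, OneWayLogFun g ∧ ∀ x, x ∈ K ↔ code (g x) ∈ L) ∧
    (∀ C : Set (Set (List Bool)), (∀ K L : Set (List Bool), LogRed K L → L ∈ C → K ∈ C) →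
      ((∀ (k : ℕ) (L : Set (List (Fin k))), DagReachInP L → oneHot '' L ∈ C) ↔
        ∀ K : Set (List Bool), InP (id : List Bool → List Bool) K → K ∈ C)) ∧
    ((∀ (k : ℕ) (L : Set (List (Fin k))), DagReachInP L → InNCk L) ↔
      ∀ K : Set (List Bool), InP (id : List Bool → List Bool) K → InNC K) := by
  refine ⟨main_complete, fun C hC => ?_, ?_⟩
  · obtain ⟨L, h1, h2, _⟩ := main_complete
    refine ⟨fun h K hK => hC K _ (h2.2 K hK) (h 3 L h1), fun h k L hL => h _ (inP_of_dagReach hL)⟩
  · refine ⟨fun h K hK => ?_, fun h k L hL => h _ (inP_of_dagReach hL)⟩
    have h3 := nc_code (h 3 (LK K) (dagReachInP_LK hK))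
    have h4 : {x | code x ∈ LK K} = K := by
      ext x
      exact code_mem_LK
    rwa [h4] at h3

end Pool.Agent.Results.MP_ef6eae_lc.PComplete
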